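import Pool.Agent.WIR.StmtsB

/-!
# Squad WIR, row FPS: first passage
-/

namespace Pool.Agent.WIR.H38

open scoped BigOperators

theorem fps (hKgg : KggStmt) (hGst : GstStmt) (hMon : MonStmt) (hFpg : FpgStmt) : FpsStmt := by
  intro B s R0 V l hV0 hV1 hV
  obtain ⟨m1, _, m3, m4⟩ := hMon
  set G : ℕ → ℕ → ℝ := fun r x => if r < R0 then (if Even r then Kh B (V (r / 2 + 1)) x
      else Gh B (V (r / 2 + 1)) x) else 1 with hG
  have hG1 : ∀ r x, R0 ≤ r → G r x = 1 := fun r x h => by
    simp only [hG, if_neg (not_lt.2 h)]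
  have hGe : ∀ k x, 2 * k < R0 → G (2 * k) x = Kh B (V (k + 1)) x := fun k x h => by
    have e1 : 2 * k / 2 = k := by omega
    simp only [hG, if_pos h, if_pos (even_two_mul k), e1]
  have hGo : ∀ k x, 2 * k + 1 < R0 → G (2 * k + 1) x = Gh B (V (k + 1)) x := fun k x h => by
    have e1 : (2 * k + 1) / 2 = k := by omega
    have e2 : ¬ Even (2 * k + 1) := by
      rw [Nat.not_even_iff_odd]; exact odd_two_mul_add_one k
    simp only [hG, if_pos h, if_neg e2, e1]
  have hle1 : ∀ k x, Gh B (V k) x ≤ 1 := fun k x =>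
    ((m1 B (V k) (fun _ => 1) x fun y _ _ => hV1 k y).1).trans (m3 B 1 x zero_le_one).1
  have hrec : ∀ r x, r < s → G r x ≤ (G (r + 1) (x + 1) + G r (x + 1)) / 2 := by
    intro r x hr
    rcases le_or_gt R0 r with h | h
    · rw [hG1 r x h, hG1 (r + 1) (x + 1) (by omega), hG1 r (x + 1) h]
      norm_num
    · rcases Nat.even_or_odd' r with ⟨k, hk | hk⟩
      · subst hk
        rw [hGe k x h, hGe k (x + 1) h, hKgg B (V (k + 1)) x,
          hGst B (Gh B (V (k + 1))) x (fun y hy => (m4 B (V (k + 1)) y hy.le).1),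
          ← hKgg B (V (k + 1)) (x + 1)]
        have h1 : Gh B (V (k + 1)) (x + 1) ≤ G (2 * k + 1) (x + 1) := by
          rcases le_or_gt R0 (2 * k + 1) with h2 | h2
          · rw [hG1 _ _ h2]; exact hle1 _ _
          · rw [hGo k (x + 1) h2]
        linarith
      · subst hk
        rw [hGo k x h, hGo k (x + 1) h, hGst B (V (k + 1)) x (hV0 (k + 1))]
        have h1 : V (k + 1) (x + 1) ≤ G (2 * k + 1 + 1) (x + 1) := by
          rcases le_or_gt R0 (2 * k + 1 + 1) with h2 | h2
          · rw [hG1 _ _ h2]; exact hV1 _ _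
          · have e1 : 2 * k + 1 + 1 = 2 * (k + 1) := by ring
            rw [e1, hGe (k + 1) (x + 1) (by omega)]
            exact hV (k + 1) (x + 1) (by omega) (by omega)
        linarith
  have h0 : V 0 l ≤ G 0 l := by
    rcases Nat.eq_zero_or_pos R0 with h | h
    · rw [hG1 0 l (by omega)]; exact hV1 _ _
    · have e1 := hGe 0 l (by omega)
      rw [mul_zero] at e1
      rw [e1]
      exact hV 0 l (by omega) (by omega)
  refine h0.trans ((hFpg s G l hrec).trans (le_of_eq ?_))
  rw [FPE, Finset.sum_filter, ← Finset.sum_add_distrib]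
  refine Finset.sum_congr rfl fun r _ => ?_
  rcases le_or_gt R0 r with h | h
  · rw [hG1 _ _ h, if_neg (not_lt.2 h), if_pos h]
    ring
  · simp only [hG, if_pos h, if_neg (not_le.2 h), add_zero]

end Pool.Agent.WIR.H38
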